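import Pool.Agent.Helper73.BP.SlackEq

/-!
# Level one with one zero row per colour in every plane over `u`
-/

set_option autoImplicit false
set_option linter.unusedSectionVars false

namespace Pool.Agent.Helper15.RC

open Pool.Agent.Helper28.BPack Pool.Agent.Helper61.Motz Pool.Agent.Helper38.Thick
  Pool.Agent.Helper73.BP

variable {L : Type} [Lattice L] [BoundedOrder L] [Finite L] [IsUpperModularLattice L]

/-- Hall's condition inside one plane over `u`. -/
theorem hall_group {A S : Finset L} {u b1 b2 : L} [DecidableEq L]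
    [DecidableRel (α := L) (· ≤ ·)] (Z : L → Prop) [DecidablePred Z]
    (hA : ∀ a ∈ A, IsAtom a) (hu : rk u = 2)
    (hb1 : b1 ∈ A) (hb1u : b1 ≤ u) (hb2 : b2 ∈ A) (hb2u : b2 ≤ u) (hb : b1 ≠ b2)
    (hmax : ∀ k, rk k = 2 → (∃ c ∈ A, c ≤ u ∧ c ≤ k) →
      (A.filter (· ≤ k)).card ≤ (A.filter (· ≤ u)).card)
    (hS : ∀ x ∈ S, x ∈ A ∧ ¬ x ≤ u) (hne : S.Nonempty)
    (hZ1 : ∀ x ∈ S, ∀ y ∈ S, ∀ c ∈ A, c ≤ u → Z (x ⊔ c) → Z (y ⊔ c) → x ⊔ c = y ⊔ c)
    (hZ2 : ∀ x ∈ S, ¬ (Z (x ⊔ b1) ∧ Z (x ⊔ b2))) :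
    S.card ≤ ((rows (A.filter (· ≤ u)) S).filter (fun k => ¬ Z k)).card := by
  classical
  set U := A.filter (· ≤ u) with hUdef
  have hmU : ∀ c, c ∈ U ↔ c ∈ A ∧ c ≤ u := fun c => by simp [hUdef]
  have hU1 : b1 ∈ U := (hmU _).mpr ⟨hb1, hb1u⟩
  have hU2 : b2 ∈ U := (hmU _).mpr ⟨hb2, hb2u⟩
  have hU : 1 ≤ U.card := Finset.card_pos.mpr ⟨b1, hU1⟩
  have hUU : 2 ≤ U.card := by
    have h1 : ({b1, b2} : Finset L) ⊆ U := by
      intro z hz
      rw [Finset.mem_insert, Finset.mem_singleton] at hz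
      rcases hz with rfl | rfl
      · exact hU1
      · exact hU2
    have h2 := Finset.card_le_card h1
    rwa [Finset.card_pair hb] at h2
  have hslack := slack hA hu hU hmax hS hne
  rw [← hUdef] at hslack
  have hsplit := Finset.card_filter_add_card_filter_not (s := rows U S) (fun k => Z k)
  -- the zero rows which meet `S`
  set W := (rows U S).filter (fun k => Z k) with hWdef
  have hmW : ∀ k, k ∈ W → ∃ x ∈ S, ∃ c ∈ U, x ⊔ c = k ∧ Z k := by
    intro k hk
    rw [hWdef, Finset.mem_filter, mem_rows] at hk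
    obtain ⟨⟨x, hx, c, hc, e⟩, hz⟩ := hk
    exact ⟨x, hx, c, hc, e, hz⟩
  choose! xx hxx cc hcc hek hZk using hmW
  have hWinj : Set.InjOn cc (W : Set L) := by
    intro k hk l hl e
    have hk' := Finset.mem_coe.mp hk
    have hl' := Finset.mem_coe.mp hl
    have hc := (hmU _).mp (hcc k hk')
    have h1 := hZ1 (xx k) (hxx k hk') (xx l) (hxx l hl') (cc k) hc.1 hc.2
      (by rw [hek k hk']; exact hZk k hk') (by rw [e, hek l hl']; exact hZk l hl')
    rw [hek k hk', e, hek l hl'] at h1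
    exact h1
  have hWU : W.image cc ⊆ U := by
    intro c hc
    obtain ⟨k, hk, rfl⟩ := Finset.mem_image.mp hc
    exact hcc k hk
  have hWc : (W.image cc).card = W.card := Finset.card_image_of_injOn hWinj
  have hWle : W.card ≤ U.card := hWc ▸ Finset.card_le_card hWU
  by_contra hcon
  push Not at hcon
  -- every colour has a zero row and the slack lemma is sharp
  have hWeq : W.card = U.card := by omega
  have hsharp : (rows U S).card + 1 ≤ S.card + U.card := by omega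
  have himg : W.image cc = U := Finset.eq_of_subset_of_card_le hWU (by rw [hWc, hWeq])
  have hzero : ∀ b ∈ U, ∃ x ∈ S, Z (x ⊔ b) := by
    intro b hbU
    rw [← himg, Finset.mem_image] at hbU
    obtain ⟨k, hk, rfl⟩ := hbU
    exact ⟨xx k, hxx k hk, by rw [hek k hk]; exact hZk k hk⟩
  obtain ⟨x1, hx1, hz1⟩ := hzero b1 hU1
  obtain ⟨x2, hx2, hz2⟩ := hzero b2 hU2
  rcases slack_eq hA hu hU hmax hS hne hsharp with h1 | ⟨hcard, hfull⟩
  · obtain ⟨z, hz⟩ := Finset.card_eq_one.mp h1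
    rw [hz, Finset.mem_singleton] at hx1 hx2
    subst hx1
    rw [hx2] at hz2
    exact hZ2 _ (by rw [hz]; exact Finset.mem_singleton_self _) ⟨hz1, hz2⟩
  · set s1 := U.card - 1 with hs1
    have hs1p : 0 < s1 := by omega
    -- the points of the zero row of `b1`
    set F := S.filter (fun y => y ⊔ b1 = x1 ⊔ b1) with hF
    have hFc : F.card = s1 := hfull b1 hb1 hb1u x1 hx1
    have hnec : ∀ x ∈ S, ∀ c, c ≤ u → x ≠ c := by
      rintro x hx c hc rfl
      exact (hS x hx).2 hc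
    have hFinj : Set.InjOn (fun y => y ⊔ b2) (F : Set L) := by
      intro p hp q hq e
      have hp' := Finset.mem_filter.mp (Finset.mem_coe.mp hp)
      have hq' := Finset.mem_filter.mp (Finset.mem_coe.mp hq)
      by_contra hpq
      have e' : p ⊔ b2 = q ⊔ b2 := e
      have e1 : p ⊔ b1 = q ⊔ b1 := hp'.2.trans hq'.2.symm
      have h1 := line_two (hA p (hS p hp'.1).1) (hA q (hS q hq'.1).1) hpq
        (le_sup_left : p ≤ p ⊔ b1) (by rw [e1]; exact le_sup_left)
        (rk_line (hA p (hS p hp'.1).1) (hA b1 hb1) (hnec p hp'.1 b1 hb1u))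
        (le_sup_left : p ≤ p ⊔ b2) (by rw [e']; exact le_sup_left)
        (rk_line (hA p (hS p hp'.1).1) (hA b2 hb2) (hnec p hp'.1 b2 hb2u))
      exact hb (row_colour hA hu hS hp'.1 hb1 hb1u hb2 hb2u h1)
    have hFimg : (F.image (fun y => y ⊔ b2)).card = s1 := by
      rw [Finset.card_image_of_injOn hFinj, hFc]
    -- all rows of `b2`
    have hall : S.card = (S.image (fun y => y ⊔ b2)).card * s1 := by
      have h5 : ∀ k ∈ S.image (fun y => y ⊔ b2), (S.filter (fun y => y ⊔ b2 = k)).card = s1 := by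
        intro k hk
        obtain ⟨x, hx, rfl⟩ := Finset.mem_image.mp hk
        exact hfull b2 hb2 hb2u x hx
      rw [Finset.card_eq_sum_card_image (fun y => y ⊔ b2) S, Finset.sum_congr rfl h5,
        Finset.sum_const, smul_eq_mul]
    have hcimg : (S.image (fun y => y ⊔ b2)).card = s1 := by
      rw [hcard] at hall
      have h2 : s1 * s1 = (S.image (fun y => y ⊔ b2)).card * s1 := by
        rw [← hall]
        ring
      exact (Nat.eq_of_mul_eq_mul_right hs1p h2).symm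
    have heq : F.image (fun y => y ⊔ b2) = S.image (fun y => y ⊔ b2) :=
      Finset.eq_of_subset_of_card_le (Finset.image_subset_image (Finset.filter_subset _ _))
        (by rw [hFimg, hcimg])
    have h3 : x2 ⊔ b2 ∈ F.image (fun y => y ⊔ b2) := by
      rw [heq]
      exact Finset.mem_image_of_mem (fun y => y ⊔ b2) hx2
    obtain ⟨p, hp, e⟩ := Finset.mem_image.mp h3
    have hp' := Finset.mem_filter.mp hp
    have e' : p ⊔ b2 = x2 ⊔ b2 := e
    exact hZ2 p hp'.1 ⟨by rw [hp'.2]; exact hz1, by rw [e']; exact hz2⟩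

/-- **Level 1** with at most one zero row of every colour in every plane over `u`, the zero rows
of `b1` and `b2` having no common point. -/
theorem level1F {A R : Finset L} {u b1 b2 : L} [DecidableEq L]
    [DecidableRel (α := L) (· ≤ ·)] (Z : L → Prop)
    (hA : ∀ a ∈ A, IsAtom a) (hu : rk u = 2)
    (hb1 : b1 ∈ A) (hb1u : b1 ≤ u) (hb2 : b2 ∈ A) (hb2u : b2 ≤ u) (hb : b1 ≠ b2)
    (hmax : ∀ k, rk k = 2 → (∃ c ∈ A, c ≤ u ∧ c ≤ k) →
      (A.filter (· ≤ k)).card ≤ (A.filter (· ≤ u)).card)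
    (hR : ∀ x ∈ R, x ∈ A ∧ ¬ x ≤ u)
    (hZ1 : ∀ x ∈ R, ∀ y ∈ R, ∀ c ∈ A, c ≤ u → y ≤ x ⊔ u → Z (x ⊔ c) → Z (y ⊔ c) →
      x ⊔ c = y ⊔ c)
    (hZ2 : ∀ x ∈ R, ¬ (Z (x ⊔ b1) ∧ Z (x ⊔ b2))) :
    ∃ c : L → L, (∀ x ∈ R, c x ∈ A ∧ c x ≤ u ∧ ¬ Z (x ⊔ c x)) ∧
      (∀ x ∈ R, ∀ y ∈ R, x ⊔ c x = y ⊔ c y → x = y) := by
  classical
  set U := A.filter (· ≤ u) with hUdef
  have hmU : ∀ c, c ∈ U ↔ c ∈ A ∧ c ≤ u := fun c => by simp [hUdef]
  -- candidate rows
  set t : L → Finset L := fun x => (U.image (fun c => x ⊔ c)).filter (fun k => ¬ Z k) with ht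
  have hmt : ∀ x k, k ∈ t x ↔ (∃ c ∈ U, x ⊔ c = k) ∧ ¬ Z k := fun x k => by
    simp only [ht, Finset.mem_filter, Finset.mem_image]
  have hbi : ∀ S : Finset L, S.biUnion t = (rows U S).filter (fun k => ¬ Z k) := by
    intro S
    ext k
    rw [Finset.mem_biUnion, Finset.mem_filter, mem_rows]
    constructor
    · rintro ⟨x, hx, hk⟩
      obtain ⟨h1, h2⟩ := (hmt x k).mp hk
      exact ⟨⟨x, hx, h1⟩, h2⟩
    · rintro ⟨⟨x, hx, h1⟩, h2⟩
      exact ⟨x, hx, (hmt x k).mpr ⟨h1, h2⟩⟩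
  -- Hall's condition
  have hallS : ∀ S ⊆ R, S.card ≤ (S.biUnion t).card := by
    intro S hSR
    have hS : ∀ x ∈ S, x ∈ A ∧ ¬ x ≤ u := fun x hx => hR x (hSR hx)
    set G := S.image (fun x => u ⊔ x) with hG
    have h1 : S.biUnion t = G.biUnion (fun P => (S.filter (fun x => u ⊔ x = P)).biUnion t) := by
      ext k
      simp only [Finset.mem_biUnion, Finset.mem_filter]
      constructor
      · rintro ⟨x, hx, hk⟩
        exact ⟨u ⊔ x, Finset.mem_image_of_mem _ hx, x, ⟨hx, rfl⟩, hk⟩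
      · rintro ⟨P, -, x, ⟨hx, -⟩, hk⟩
        exact ⟨x, hx, hk⟩
    have hPk : ∀ x k, k ∈ t x → u ⊔ x = u ⊔ k := by
      intro x k hk
      obtain ⟨⟨c, hc, e⟩, -⟩ := (hmt x k).mp hk
      rw [← e]
      apply le_antisymm
      · exact sup_le le_sup_left (le_sup_left.trans le_sup_right)
      · exact sup_le le_sup_left (sup_le le_sup_right (((hmU c).mp hc).2.trans le_sup_left))
    have h2 : (S.biUnion t).card
        = ∑ P ∈ G, ((S.filter (fun x => u ⊔ x = P)).biUnion t).card := by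
      rw [h1, Finset.card_biUnion]
      intro P hP Q hQ hPQ
      rw [Function.onFun, Finset.disjoint_left]
      intro k hk hk'
      obtain ⟨x, hx, hxk⟩ := Finset.mem_biUnion.mp hk
      obtain ⟨y, hy, hyk⟩ := Finset.mem_biUnion.mp hk'
      rw [Finset.mem_filter] at hx hy
      exact hPQ (by rw [← hx.2, ← hy.2, hPk x k hxk, hPk y k hyk])
    rw [h2, Finset.card_eq_sum_card_image (fun x => u ⊔ x) S]
    refine Finset.sum_le_sum ?_
    intro P hP
    obtain ⟨x0, hx0, rfl⟩ := Finset.mem_image.mp hP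
    rw [hbi]
    have hsame : ∀ x ∈ S.filter (fun x => u ⊔ x = u ⊔ x0),
        ∀ y ∈ S.filter (fun x => u ⊔ x = u ⊔ x0), y ≤ x ⊔ u := by
      intro x hx y hy
      rw [Finset.mem_filter] at hx hy
      rw [sup_comm x u, hx.2, ← hy.2]
      exact le_sup_right
    exact hall_group Z hA hu hb1 hb1u hb2 hb2u hb hmax
      (fun x hx => hS x (Finset.mem_filter.mp hx).1)
      ⟨x0, Finset.mem_filter.mpr ⟨hx0, rfl⟩⟩
      (fun x hx y hy c hc hcu hz hz' => hZ1 x (hSR (Finset.mem_filter.mp hx).1) y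
        (hSR (Finset.mem_filter.mp hy).1) c hc hcu (hsame x hx y hy) hz hz')
      (fun x hx => hZ2 x (hSR (Finset.mem_filter.mp hx).1))
  have hall : ∀ S : Finset {x // x ∈ R}, S.card ≤ (S.biUnion (fun x => t x.1)).card := by
    intro S
    have h1 := hallS (S.map (Function.Embedding.subtype _)) (by
      intro x hx
      rw [Finset.mem_map] at hx
      obtain ⟨y, -, rfl⟩ := hx
      exact y.2)
    rw [Finset.card_map] at h1
    refine h1.trans (le_of_eq ?_)
    congr 1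
    ext k
    simp only [Finset.mem_biUnion, Finset.mem_map, Function.Embedding.subtype_apply]
    constructor
    · rintro ⟨x, ⟨y, hy, rfl⟩, hk⟩
      exact ⟨y, hy, hk⟩
    · rintro ⟨y, hy, hk⟩
      exact ⟨y.1, ⟨y, hy, rfl⟩, hk⟩
  obtain ⟨f, hf, hft⟩ := (Finset.all_card_le_biUnion_card_iff_exists_injective _).mp hall
  have hex : ∀ x : {x // x ∈ R}, ∃ c ∈ U, x.1 ⊔ c = f x := fun x => ((hmt _ _).mp (hft x)).1
  choose g hgU hgf using hex
  refine ⟨fun x => if h : x ∈ R then g ⟨x, h⟩ else x, ?_, ?_⟩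
  · intro x hx
    simp only [hx, dite_true]
    have h1 := (hmU _).mp (hgU ⟨x, hx⟩)
    refine ⟨h1.1, h1.2, ?_⟩
    have h2 := ((hmt _ _).mp (hft ⟨x, hx⟩)).2
    rw [← hgf ⟨x, hx⟩] at h2
    exact h2
  · intro x hx y hy e
    simp only [hx, hy, dite_true] at e
    have h1 : f ⟨x, hx⟩ = f ⟨y, hy⟩ := by
      rw [← hgf ⟨x, hx⟩, ← hgf ⟨y, hy⟩]
      exact e
    exact congrArg Subtype.val (hf h1)

end Pool.Agent.Helper15.RC
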