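import Pool.Agent.Helper80.BP.VCore

/-!
# One class

If the rows are long enough, every user is in the class one.
-/

set_option autoImplicit false
set_option linter.unusedSectionVars false

namespace Pool.Agent.Helper15.RC

open Pool.Agent.Helper28.BPack Pool.Agent.Helper61.Motz Pool.Agent.Helper38.Thick
  Pool.Agent.Helper80.BP

variable {L : Type} [Lattice L] [BoundedOrder L] [Finite L] [IsUpperModularLattice L]
  [DecidableEq L] [DecidableRel (α := L) (· ≤ ·)]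
  {A R : Finset L} {u : L} {own : L → Finset L} {cls : L → ℕ}

/-- **All users are in the class one**: `s` points on `u`, at least `s / 2 + 1` users on every
owned row, but at least `s / 2` users on the rows with `V`, at most one of which passes through
each user. -/
theorem one_class (S : SC A R u own cls) (V : L → Prop)
    (hs : 2 ≤ (A.filter (· ≤ u)).card)
    (hlong : ∀ x ∈ R, ∀ c ∈ own x, ¬ V (x ⊔ c) →
      (A.filter (· ≤ u)).card + 2 ≤ 2 * (R.filter (· ≤ x ⊔ c)).card)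
    (hshort : ∀ x ∈ R, ∀ c ∈ own x, V (x ⊔ c) →
      (A.filter (· ≤ u)).card ≤ 2 * (R.filter (· ≤ x ⊔ c)).card)
    (hV : ∀ x ∈ R, ∀ c ∈ A, c ≤ u → ∀ c' ∈ A, c' ≤ u → V (x ⊔ c) → V (x ⊔ c') → c = c') :
    ∀ x ∈ R, cls x = 1 := by
  classical
  set U := A.filter (· ≤ u) with hUdef
  have hmU : ∀ c, c ∈ U ↔ c ∈ A ∧ c ≤ u := fun c => by simp [hUdef]
  set s := U.card with hsdef
  set W := R.filter (fun x => 2 ≤ cls x) with hWdef
  have hmW : ∀ x, x ∈ W ↔ x ∈ R ∧ 2 ≤ cls x := fun x => by simp [hWdef]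
  have hsq : (2 : ℚ) ≤ s := by exact_mod_cast hs
  have hne : ∀ x ∈ R, ∀ c, c ≤ u → x ≠ c := by
    rintro x hx c hc rfl
    exact S.off x hx hc
  have hrow : ∀ x ∈ R, ∀ c ∈ own x, ∀ y ∈ R, y ≤ x ⊔ c → y ⊔ c = x ⊔ c := by
    intro x hx c hc y hy h
    obtain ⟨h1, h2⟩ := S.ownA x hx c hc
    exact line_of (S.at_ y (S.mem y hy)) (S.at_ c h1) (hne y hy c h2) h le_sup_right
      (rk_line (S.at_ x (S.mem x hx)) (S.at_ c h1) (hne x hx c h2))
  -- the users of an owned row are in `W`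
  have hTW : ∀ x ∈ W, ∀ c ∈ own x, R.filter (· ≤ x ⊔ c) = W.filter (· ≤ x ⊔ c) := by
    intro x hx c hc
    ext y
    rw [Finset.mem_filter, Finset.mem_filter, hmW]
    have hx' := (hmW x).mp hx
    constructor
    · rintro ⟨h1, h2⟩
      exact ⟨⟨h1, hx'.2.trans (S.low x hx'.1 c hc y h1 h2)⟩, h2⟩
    · rintro ⟨⟨h1, -⟩, h2⟩
      exact ⟨h1, h2⟩
  have hTpos : ∀ x ∈ W, ∀ c ∈ own x, 0 < (R.filter (· ≤ x ⊔ c)).card := by
    intro x hx c hc
    exact Finset.card_pos.mpr ⟨x, Finset.mem_filter.mpr ⟨((hmW x).mp hx).1, le_sup_left⟩⟩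
  intro x0 hx0
  by_contra hcon
  have hx0W : x0 ∈ W := (hmW x0).mpr ⟨hx0, by
    have := S.cls1 x0 hx0
    omega⟩
  -- number of owned rows
  have h1 : (2 * (W.card : ℚ)) ≤ ∑ x ∈ W, ((own x).card : ℚ) := by
    have h2 : ∑ _x ∈ W, (2 : ℚ) ≤ ∑ x ∈ W, ((own x).card : ℚ) := by
      refine Finset.sum_le_sum fun x hx => ?_
      have h3 := (hmW x).mp hx
      have h4 := S.lo x h3.1
      exact_mod_cast h3.2.trans h4
    rw [Finset.sum_const, nsmul_eq_mul] at h2
    linarith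
  set a : L → L → ℚ := fun x c => 1 / ((R.filter (· ≤ x ⊔ c)).card : ℚ) with hadef
  have h2 : ∑ x ∈ W, ((own x).card : ℚ)
      = ∑ y ∈ W, ∑ x ∈ W, ∑ c ∈ own x, if y ≤ x ⊔ c then a x c else 0 := by
    rw [Finset.sum_comm]
    refine Finset.sum_congr rfl fun x hx => ?_
    rw [Finset.sum_comm]
    have h3 : ∀ c ∈ own x, ∑ y ∈ W, (if y ≤ x ⊔ c then a x c else 0) = 1 := by
      intro c hc
      rw [← Finset.sum_filter, Finset.sum_const, nsmul_eq_mul, ← hTW x hx c hc, hadef]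
      have h4 : ((R.filter (· ≤ x ⊔ c)).card : ℚ) ≠ 0 := by
        exact_mod_cast (hTpos x hx c hc).ne'
      field_simp
    rw [Finset.sum_congr rfl h3, Finset.sum_const, nsmul_eq_mul, mul_one]
  -- the load of one user
  set g : L → L → ℚ := fun y c => 2 / ((s : ℚ) + 2) +
    (if V (y ⊔ c) then 2 / (s : ℚ) - 2 / ((s : ℚ) + 2) else 0) with hgdef
  have hdiff : (0 : ℚ) ≤ 2 / (s : ℚ) - 2 / ((s : ℚ) + 2) := by
    have : (2 : ℚ) / ((s : ℚ) + 2) ≤ 2 / (s : ℚ) := by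
      apply div_le_div_of_nonneg_left <;> linarith
    linarith
  have hg0 : ∀ y c, 0 ≤ g y c := by
    intro y c
    rw [hgdef]
    have : (0 : ℚ) ≤ 2 / ((s : ℚ) + 2) := by positivity
    simp only
    split_ifs <;> linarith
  have hag : ∀ x ∈ W, ∀ c ∈ own x, ∀ y ∈ W, y ≤ x ⊔ c → a x c ≤ g y c := by
    intro x hx c hc y hy hyx
    have hx' := (hmW x).mp hx
    have hy' := (hmW y).mp hy
    have e := hrow x hx'.1 c hc y hy'.1 hyx
    have hp := hTpos x hx c hc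
    have hp' : (0 : ℚ) < ((R.filter (· ≤ x ⊔ c)).card : ℚ) := by exact_mod_cast hp
    rw [hgdef, hadef]
    simp only
    rw [e]
    by_cases hVc : V (x ⊔ c)
    · rw [if_pos hVc]
      have h3 : (s : ℚ) ≤ 2 * ((R.filter (· ≤ x ⊔ c)).card : ℚ) := by
        exact_mod_cast hshort x hx'.1 c hc hVc
      have h4 : 1 / ((R.filter (· ≤ x ⊔ c)).card : ℚ) ≤ 2 / (s : ℚ) := by
        rw [div_le_div_iff₀ hp' (by linarith)]
        linarith
      linarith
    · rw [if_neg hVc, add_zero]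
      have h3 : (s : ℚ) + 2 ≤ 2 * ((R.filter (· ≤ x ⊔ c)).card : ℚ) := by
        exact_mod_cast hlong x hx'.1 c hc hVc
      rw [div_le_div_iff₀ hp' (by linarith)]
      linarith
  have h3 : ∀ y ∈ W, ∑ x ∈ W, ∑ c ∈ own x, (if y ≤ x ⊔ c then a x c else 0)
      ≤ ∑ c ∈ U, g y c := by
    intro y hy
    rw [Finset.sum_sigma', ← Finset.sum_filter]
    set D := (W.sigma fun x => own x).filter (fun p => y ≤ p.1 ⊔ p.2) with hD
    have hmD : ∀ p, p ∈ D → p.1 ∈ W ∧ p.2 ∈ own p.1 ∧ y ≤ p.1 ⊔ p.2 := by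
      intro p hp
      rw [hD, Finset.mem_filter, Finset.mem_sigma] at hp
      exact ⟨hp.1.1, hp.1.2, hp.2⟩
    have hinj : Set.InjOn (fun p : (Σ _ : L, L) => p.2) (D : Set (Σ _ : L, L)) := by
      intro p hp q hq e
      obtain ⟨p1, p2, p3⟩ := hmD p (Finset.mem_coe.mp hp)
      obtain ⟨q1, q2, q3⟩ := hmD q (Finset.mem_coe.mp hq)
      have e' : p.2 = q.2 := e
      have hp' := (hmW _).mp p1
      have hq' := (hmW _).mp q1
      have hy' := (hmW _).mp hy
      have e1 := hrow p.1 hp'.1 p.2 p2 y hy'.1 p3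
      have e2 := hrow q.1 hq'.1 q.2 q2 y hy'.1 q3
      rw [← e'] at e2 q2
      have h5 := S.uniq p.1 hp'.1 q.1 hq'.1 p.2 p2 q2 (e1.symm.trans e2)
      exact Sigma.ext h5 (heq_of_eq e')
    calc ∑ p ∈ D, a p.1 p.2 ≤ ∑ p ∈ D, g y p.2 := by
          refine Finset.sum_le_sum fun p hp => ?_
          obtain ⟨p1, p2, p3⟩ := hmD p hp
          exact hag p.1 p1 p.2 p2 y hy p3
      _ = ∑ c ∈ D.image (fun p => p.2), g y c := by
          rw [Finset.sum_image hinj]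
      _ ≤ ∑ c ∈ U, g y c := by
          apply Finset.sum_le_sum_of_subset_of_nonneg
          · intro c hc
            obtain ⟨p, hp, rfl⟩ := Finset.mem_image.mp hc
            obtain ⟨p1, p2, p3⟩ := hmD p hp
            exact (hmU _).mpr (S.ownA p.1 ((hmW _).mp p1).1 p.2 p2)
          · intro c _ _
            exact hg0 y c
  have h4 : ∀ y ∈ W, ∑ c ∈ U, g y c ≤ (s : ℚ) * (2 / ((s : ℚ) + 2)) +
      (2 / (s : ℚ) - 2 / ((s : ℚ) + 2)) := by
    intro y hy
    have hy' := (hmW _).mp hy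
    rw [hgdef]
    simp only
    rw [Finset.sum_add_distrib, Finset.sum_const, nsmul_eq_mul, ← Finset.sum_filter,
      Finset.sum_const, nsmul_eq_mul]
    have h5 : (U.filter (fun c => V (y ⊔ c))).card ≤ 1 := by
      rw [Finset.card_le_one]
      intro c hc c' hc'
      rw [Finset.mem_filter, hmU] at hc hc'
      exact hV y hy'.1 c hc.1.1 hc.1.2 c' hc'.1.1 hc'.1.2 hc.2 hc'.2
    have h6 : ((U.filter (fun c => V (y ⊔ c))).card : ℚ) ≤ 1 := by exact_mod_cast h5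
    have h7 := mul_le_mul_of_nonneg_right h6 hdiff
    rw [← hsdef]
    linarith
  have h5 : (s : ℚ) * (2 / ((s : ℚ) + 2)) + (2 / (s : ℚ) - 2 / ((s : ℚ) + 2)) < 2 := by
    have hs0 : (0 : ℚ) < s := by linarith
    have hs2 : (0 : ℚ) < (s : ℚ) + 2 := by linarith
    have e : (s : ℚ) * (2 / ((s : ℚ) + 2)) + (2 / (s : ℚ) - 2 / ((s : ℚ) + 2))
        = 2 - (2 * (s : ℚ) - 4 + 2 * s) / (s * (s + 2)) + 0 := by
      field_simp
      ring
    rw [e]
    have : (0 : ℚ) < (2 * (s : ℚ) - 4 + 2 * s) / (s * (s + 2)) := by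
      apply div_pos
      · linarith
      · positivity
    linarith
  have h6 : ∑ x ∈ W, ((own x).card : ℚ) < 2 * (W.card : ℚ) := by
    rw [h2]
    calc ∑ y ∈ W, ∑ x ∈ W, ∑ c ∈ own x, (if y ≤ x ⊔ c then a x c else 0)
        ≤ ∑ _y ∈ W, ((s : ℚ) * (2 / ((s : ℚ) + 2)) + (2 / (s : ℚ) - 2 / ((s : ℚ) + 2))) :=
          Finset.sum_le_sum fun y hy => (h3 y hy).trans (h4 y hy)
      _ < ∑ _y ∈ W, (2 : ℚ) := by
          apply Finset.sum_lt_sum_of_nonempty ⟨x0, hx0W⟩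
          intro y _
          exact h5
      _ = 2 * (W.card : ℚ) := by
          rw [Finset.sum_const, nsmul_eq_mul, mul_comm]
  linarith

end Pool.Agent.Helper15.RC
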